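import Pool.Agent.H94.G5T.G4.F.FDefs
import Pool.Agent.H94.G5T.M122
import Pool.Agent.H94.G5T.M45

/-!
# G4 F ConJ: the jet forms on the cone, any dimension

As `G3/F/ConJ`.  `jf`: the jet form on the cone.  `algp_jf`: it is algebraic; `eval_growth`: the growth of polynomials.  `thp_jf`: it is not `0` on the open subsets of the fibres over the points outside `Nν`.
`jform_of`: from `HasJetForms`; the polynomials `R i` are multiplied by powers of the coordinates, such that they have the same degree; `Nν = D ∪ Z`, the lines meet `D` and `Z` in isolated points (`ldi_of`: the torus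
is simple).
-/

set_option autoImplicit false

open Topology Filter Metric MvPolynomial

namespace Pool.Agent.G4

open Pool.Agent.H17 (PN VanishesAt HolomorphicInto puncturedDisc)
open Pool.Agent.H62.FC (Homog)
open Pool.Agent.H17LG.Variety (FunField IsLogGeneralType)
open Pool.Agent.H17EF (projVar coneE LE mem_coneE mk_mem_projVar)
open Pool.Agent.H36.BP (EN fs wd Sub Curve)
open Pool.Agent.H14.PP (IsCone CurveAt Tan)
open Pool.Agent.H62.EF (MN pr)
open Pool.Agent.AD (Vd Chart Charts uV IsHolomorphicTorusMap)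
open Pool.Agent.TG (TMap Lat Geo Gd VForm Fb)
open Pool.Agent.TGF (Cn Over Submersion IsAnalyticSubset)
open Pool.Agent.G3F (IsCurveOver jet)
open Pool.Agent.G3.C (JForm DirC jt)
open Pool.Agent.G4.C (AlgP ThP)

variable {N k : ℕ} {P : Ideal (MvPolynomial (Fin (N + 1)) ℂ)} {Λ : AddSubgroup (Cn (k + 1))} {u : PN N → Cn (k + 1) ⧸ Λ} {D B : Set (Cn (k + 1))}

/-- the growth of polynomials -/
theorem eval_growth {σ : Type*} [Fintype σ] (Q : MvPolynomial σ ℂ) : ∃ (C : ℝ) (M : ℕ), 0 ≤ C ∧ ∀ x : σ → ℂ, ‖eval x Q‖ ≤ C * (1 + ‖x‖) ^ M := by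
  induction Q using MvPolynomial.induction_on with
  | C a => exact ⟨‖a‖, 0, norm_nonneg _, fun x => by simp⟩
  | add p q hp hq =>
    obtain ⟨C₁, M₁, h1, hp⟩ := hp
    obtain ⟨C₂, M₂, h2, hq⟩ := hq
    refine ⟨C₁ + C₂, max M₁ M₂, by positivity, fun x => ?_⟩
    have hx : (1 : ℝ) ≤ 1 + ‖x‖ := by linarith [norm_nonneg x]
    rw [map_add, add_mul]
    refine (norm_add_le _ _).trans (add_le_add ((hp x).trans ?_) ((hq x).trans ?_))
    · exact mul_le_mul_of_nonneg_left (pow_le_pow_right₀ hx (le_max_left _ _)) h1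
    · exact mul_le_mul_of_nonneg_left (pow_le_pow_right₀ hx (le_max_right _ _)) h2
  | mul_X p i hp =>
    obtain ⟨C₁, M₁, h1, hp⟩ := hp
    refine ⟨C₁, M₁ + 1, h1, fun x => ?_⟩
    rw [map_mul, eval_X, norm_mul, pow_succ, ← mul_assoc]
    have h3 : ‖x i‖ ≤ 1 + ‖x‖ := by linarith [norm_le_pi_norm x i]
    exact mul_le_mul (hp x) h3 (norm_nonneg _) (by positivity)

private lemma jet_symm {m : ℕ} (φ : ℂ → EN N) : jet m (fun t => (LE N).symm (φ t)) = fun i => (LE N).symm (jt m φ i) := by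
  funext j
  show iteratedDeriv (j : ℕ) (fun t => (LE N).symm (φ t)) 0 = (LE N).symm (iteratedDeriv (j : ℕ) φ 0)
  rw [iteratedDeriv_eq_iteratedFDeriv, iteratedDeriv_eq_iteratedFDeriv]
  have h1 := (LE N).symm.iteratedFDeriv_comp_left (f := φ) (x := (0 : ℂ)) (i := (j : ℕ))
  have h2 : (fun t => (LE N).symm (φ t)) = (LE N).symm ∘ φ := rfl
  rw [h2, h1]
  rfl

private lemma curve_symm (hP : Homog P) {ν : Vd (k + 1)} {φ : ℂ → EN N} (h : DirC (coneE P) Λ (uV Λ u) ν φ) :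
    IsCurveOver (projVar P) Λ u ν (fun t => (LE N).symm (φ t)) := by
  refine ⟨(((LE N).symm : EN N →L[ℂ] (Fin (N + 1) → ℂ)).analyticAt _).comp h.1, uV Λ u (φ 0), ?_⟩
  filter_upwards [h.2] with t ht
  exact (Pool.Agent.TGF.over_iff hP).2 ht

private lemma submersion_of_str (hP : Homog P) {χ : Chart (k + 2) (coneE P)} {c : Vd (k + 1)} {ρ : ℝ} (hs : Pool.Agent.TG.Str Λ (uV Λ u) χ c ρ) {q₀ : Vd (k + 2)}
    (hq₀ : q₀ ∈ ball (0 : Vd (k + 2)) 2) (h : (LE N).symm (χ.σ q₀) ≠ 0) :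
    Pool.Agent.TGF.Submersion (projVar P) Λ u (Pool.Agent.TG.ms c ρ q₀) (Projectivization.mk ℂ ((LE N).symm (χ.σ q₀)) h) := by
  have hρ : (ρ : ℂ) ≠ 0 := by exact_mod_cast hs.pos.ne'
  obtain ⟨w, hw⟩ : ∃ w : Fin (k + 2) → ℂ, w = Fin.cons 1 fun _ => (ρ : ℂ)⁻¹ := ⟨_, rfl⟩
  have hw0 : ∀ i, w i ≠ 0 := by
    intro i
    rw [hw]
    refine Fin.cases ?_ (fun j => ?_) i
    · simp
    · simpa using hρ
  obtain ⟨T, hT⟩ : ∃ T : Cn (k + 2) → Vd (k + 2), T = fun p => q₀ + fun i => w i * p i := ⟨_, rfl⟩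
  have hTan : ∀ p, AnalyticAt ℂ T p := by
    intro p
    rw [hT]
    refine analyticAt_const.add (analyticAt_pi_iff.2 fun i => ?_)
    exact analyticAt_const.mul ((ContinuousLinearMap.proj (R := ℂ) (φ := fun _ : Fin (k + 2) => ℂ) i).analyticAt p)
  have hT0 : T 0 = q₀ := by
    rw [hT]
    funext i
    simp
  have hTev : ∀ᶠ p in 𝓝 (0 : Cn (k + 2)), T p ∈ ball (0 : Vd (k + 2)) 2 := by
    refine (hTan 0).continuousAt.eventually (isOpen_ball.mem_nhds ?_)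
    rw [hT0]
    exact hq₀
  have hov : ∀ᶠ p in 𝓝 (0 : Cn (k + 2)), Over (projVar P) Λ u (Pool.Agent.TG.ms c ρ q₀ + fun i => p i.succ) ((LE N).symm (χ.σ (T p))) := by
    filter_upwards [hTev] with p hp
    refine (Pool.Agent.TGF.over_iff hP).2 ⟨(χ.σ_mem _ hp).1, ?_⟩
    have h1 := hs.lift _ hp
    have h2 : Pool.Agent.TG.ms c ρ (T p) = Pool.Agent.TG.ms c ρ q₀ + fun i => p i.succ := by
      rw [hT]
      funext i
      simp only [Pool.Agent.TG.ms, Pool.Agent.TG.tl, Pi.add_apply, Pi.smul_apply, smul_eq_mul, hw, Fin.cons_succ]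
      field_simp
      ring
    rwa [h2] at h1
  refine ⟨fun p => (LE N).symm (χ.σ (T p)), ⟨?_, ?_, ?_, ?_⟩, hov⟩
  · refine (((LE N).symm : EN N →L[ℂ] (Fin (N + 1) → ℂ)).analyticAt _).comp ?_
    refine AnalyticAt.comp (g := χ.σ) ?_ (hTan 0)
    rw [hT0]
    exact χ.σ_an _ hq₀
  · refine ⟨by rw [hT0]; exact h, ?_⟩
    simp only [hT0]
  · filter_upwards [hov] with p hp
    exact ⟨hp.choose, hp.choose_spec.1⟩
  · intro v a hva
    have hσd : HasFDerivAt χ.σ (fderiv ℂ χ.σ q₀) (T 0) := by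
      rw [hT0]
      exact (χ.σ_an _ hq₀).differentiableAt.hasFDerivAt
    obtain ⟨L, hL⟩ : ∃ L : Cn (k + 2) →L[ℂ] Vd (k + 2), ∀ p i, L p i = w i * p i :=
      ⟨ContinuousLinearMap.pi fun i => w i • ContinuousLinearMap.proj (R := ℂ) (φ := fun _ : Fin (k + 2) => ℂ) i, fun p i => by simp⟩
    have hTd : HasFDerivAt T L 0 := by
      have h1 : T = fun p => q₀ + L p := by
        rw [hT]
        funext p i
        rw [Pi.add_apply, Pi.add_apply, hL]
      rw [h1]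
      exact L.hasFDerivAt.const_add q₀
    have h2 : HasFDerivAt (fun p => (LE N).symm (χ.σ (T p))) (((LE N).symm : EN N →L[ℂ] (Fin (N + 1) → ℂ)).comp ((fderiv ℂ χ.σ q₀).comp L)) 0 :=
      ((LE N).symm : EN N →L[ℂ] (Fin (N + 1) → ℂ)).hasFDerivAt.comp 0 (hσd.comp 0 hTd)
    rw [h2.fderiv] at hva
    have h3 : fderiv ℂ χ.σ q₀ (L v) = a • χ.σ q₀ := by
      have h4 : (LE N).symm (fderiv ℂ χ.σ q₀ (L v)) = a • (LE N).symm (χ.σ q₀) := by
        rw [← hT0]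
        rw [← hT0] at hva
        exact hva
      rw [← map_smul] at h4
      exact (LE N).symm.injective h4
    have hU := (χ.σ_mem _ hq₀).2.1
    have hq : HasFDerivAt χ.q (fderiv ℂ χ.q (χ.σ q₀)) (χ.σ q₀) := (χ.q_an _ hU).differentiableAt.hasFDerivAt
    have h5 : fderiv ℂ χ.q (χ.σ q₀) (fderiv ℂ χ.σ q₀ (L v)) = L v := by
      have h6 : HasFDerivAt (fun p => χ.q (χ.σ p)) ((fderiv ℂ χ.q (χ.σ q₀)).comp (fderiv ℂ χ.σ q₀)) q₀ :=
        hq.comp q₀ (χ.σ_an _ hq₀).differentiableAt.hasFDerivAt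
      have h7 : HasFDerivAt (fun p => χ.q (χ.σ p)) (ContinuousLinearMap.id ℂ (Vd (k + 2))) q₀ := by
        refine (hasFDerivAt_id q₀).congr_of_eventuallyEq ?_
        filter_upwards [isOpen_ball.mem_nhds hq₀] with p hp
        exact (χ.σ_mem _ hp).2.2
      have h8 := h6.unique h7
      exact congrArg (fun M : Vd (k + 2) →L[ℂ] Vd (k + 2) => M (L v)) h8
    have h6 : fderiv ℂ χ.q (χ.σ q₀) (χ.σ q₀) = 0 := by
      have h7 : HasDerivAt (fun t : ℂ => χ.q ((1 + t) • χ.σ q₀)) (fderiv ℂ χ.q (χ.σ q₀) (χ.σ q₀)) 0 := by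
        have h8 : HasDerivAt (fun t : ℂ => (1 + t) • χ.σ q₀) (χ.σ q₀) 0 := by
          have h9 : HasDerivAt (fun t : ℂ => 1 + t) 1 0 := (hasDerivAt_id (0 : ℂ)).const_add 1
          simpa using h9.smul_const (χ.σ q₀)
        have h10 : HasFDerivAt χ.q (fderiv ℂ χ.q (χ.σ q₀)) ((1 + (0 : ℂ)) • χ.σ q₀) := by
          rw [add_zero, one_smul]
          exact hq
        exact h10.comp_hasDerivAt (0 : ℂ) h8
      have h8 : HasDerivAt (fun t : ℂ => χ.q ((1 + t) • χ.σ q₀)) 0 0 := by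
        refine (hasDerivAt_const (0 : ℂ) (χ.q (χ.σ q₀))).congr_of_eventuallyEq ?_
        have h9 : ∀ᶠ t : ℂ in 𝓝 0, 1 + t ≠ 0 := by
          have h10 : Tendsto (fun t : ℂ => 1 + t) (𝓝 0) (𝓝 (1 + 0)) := (continuous_const.add continuous_id).tendsto 0
          rw [add_zero] at h10
          exact h10.eventually (isOpen_ne.mem_nhds one_ne_zero)
        filter_upwards [h9] with t ht
        exact χ.q_smul _ hU _ ht
      exact h7.unique h8
    rw [h3, map_smul, h6, smul_zero] at h5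
    funext i
    have h7 := congrFun h5 i
    rw [hL] at h7
    rcases mul_eq_zero.1 h7.symm with h8 | h8
    · exact absurd h8 (hw0 i)
    · exact h8

/-- the jet form on the cone -/
noncomputable def jf (hP : Homog P) {ν : Vd (k + 1)} {m : ℕ} {Ψ : (Fin (m + 1) → Cn (N + 1)) → ℂ}
    (hhom : ∀ φ : ℂ → Cn (N + 1), IsCurveOver (projVar P) Λ u ν φ → ∀ c : ℂ → ℂ, AnalyticAt ℂ c 0 → c 0 ≠ 0 → Ψ (jet m fun t => c t • φ t) = (c 0)⁻¹ * Ψ (jet m φ))
    (hhol : ∀ (r : ℕ) (φ : Cn r × ℂ → Cn (N + 1)) (p : Cn r), AnalyticAt ℂ φ (p, 0) →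
      (∃ (y : Cn (k + 1)) (h : φ (p, 0) ≠ 0), Submersion (projVar P) Λ u y (Projectivization.mk ℂ (φ (p, 0)) h)) →
      (∀ᶠ q : Cn r × ℂ in 𝓝 (p, 0), ∃ y, Over (projVar P) Λ u y (φ (q.1, 0)) ∧ Over (projVar P) Λ u (y + q.2 • ν) (φ q)) → AnalyticAt ℂ (fun q => Ψ (jet m fun t => φ (q, t))) p) :
    JForm (coneE P) Λ (uV Λ u) ν m where
  toFun j := Ψ (fun i => (LE N).symm (j i))
  scale := by
    intro φ hφ c hc hc0
    have h1 := hhom _ (curve_symm hP hφ) c hc hc0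
    have h2 : (fun t => c t • (LE N).symm (φ t)) = fun t => (LE N).symm (c t • φ t) := by
      funext t; rw [map_smul]
    rw [h2, jet_symm (fun t => c t • φ t), jet_symm φ] at h1
    exact h1
  analytic := by
    intro E _ _ _ φ p hφ hφX hstr
    let e : E ≃L[ℂ] (Fin (Module.finrank ℂ E) → ℂ) := ContinuousLinearEquiv.ofFinrankEq (by simp)
    have hpe : e.symm (e p) = p := e.symm_apply_apply p
    have hmap : AnalyticAt ℂ (fun q : (Fin (Module.finrank ℂ E) → ℂ) × ℂ => ((e.symm q.1, q.2) : E × ℂ)) (e p, 0) := by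
      have h1 : AnalyticAt ℂ (fun q : (Fin (Module.finrank ℂ E) → ℂ) × ℂ => e.symm q.1) (e p, 0) :=
        ((e.symm : (Fin (Module.finrank ℂ E) → ℂ) →L[ℂ] E).analyticAt _).comp analyticAt_fst
      exact h1.prod analyticAt_snd
    have hmt : Tendsto (fun q : (Fin (Module.finrank ℂ E) → ℂ) × ℂ => ((e.symm q.1, q.2) : E × ℂ)) (𝓝 (e p, 0)) (𝓝 (p, 0)) := by
      have h1 := hmap.continuousAt.tendsto
      simpa only [hpe] using h1
    have hφ' : AnalyticAt ℂ (fun q : (Fin (Module.finrank ℂ E) → ℂ) × ℂ => (LE N).symm (φ (e.symm q.1, q.2))) (e p, 0) := by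
      have h1 : AnalyticAt ℂ φ (e.symm (e p), (0 : ℂ)) := by rw [hpe]; exact hφ
      have h2 : AnalyticAt ℂ (fun q : (Fin (Module.finrank ℂ E) → ℂ) × ℂ => φ (e.symm q.1, q.2)) (e p, 0) :=
        AnalyticAt.comp (g := φ) (f := fun q : (Fin (Module.finrank ℂ E) → ℂ) × ℂ => ((e.symm q.1, q.2) : E × ℂ)) h1 hmap
      exact (((LE N).symm : EN N →L[ℂ] (Fin (N + 1) → ℂ)).analyticAt _).comp h2
    have hev : ∀ᶠ q : (Fin (Module.finrank ℂ E) → ℂ) × ℂ in 𝓝 (e p, 0), ∃ y, Over (projVar P) Λ u y ((fun q : (Fin (Module.finrank ℂ E) → ℂ) × ℂ =>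
        (LE N).symm (φ (e.symm q.1, q.2))) (q.1, 0)) ∧ Over (projVar P) Λ u (y + q.2 • ν) ((fun q : (Fin (Module.finrank ℂ E) → ℂ) × ℂ =>
        (LE N).symm (φ (e.symm q.1, q.2))) q) := by
      have h0 : Tendsto (fun q : (Fin (Module.finrank ℂ E) → ℂ) × ℂ => ((e.symm q.1, (0 : ℂ)) : E × ℂ)) (𝓝 (e p, 0)) (𝓝 (p, 0)) := by
        have h1 : Continuous (fun q : (Fin (Module.finrank ℂ E) → ℂ) × ℂ => ((e.symm q.1, (0 : ℂ)) : E × ℂ)) :=
          (e.symm.continuous.comp continuous_fst).prodMk continuous_const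
        have h2 := h1.tendsto (e p, 0)
        simpa only [hpe] using h2
      filter_upwards [hmt.eventually hφX, h0.eventually hφX] with q hq hq0
      refine ⟨uV Λ u (φ (e.symm q.1, 0)), (Pool.Agent.TGF.over_iff hP).2 ⟨hq0.1, ?_⟩, (Pool.Agent.TGF.over_iff hP).2 ⟨hq.1, hq.2⟩⟩
      rw [sub_self]
      exact Λ.zero_mem
    have hsub : ∃ (y : Cn (k + 1)) (h : (fun q : (Fin (Module.finrank ℂ E) → ℂ) × ℂ => (LE N).symm (φ (e.symm q.1, q.2))) (e p, 0) ≠ 0),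
        Pool.Agent.TGF.Submersion (projVar P) Λ u y (Projectivization.mk ℂ ((fun q : (Fin (Module.finrank ℂ E) → ℂ) × ℂ => (LE N).symm (φ (e.symm q.1, q.2))) (e p, 0)) h) := by
      obtain ⟨χ, c, ρ, hs, q₀, hq₀, hσ⟩ := hstr
      have h1 : (fun q : (Fin (Module.finrank ℂ E) → ℂ) × ℂ => (LE N).symm (φ (e.symm q.1, q.2))) (e p, 0) = (LE N).symm (χ.σ q₀) := by
        show (LE N).symm (φ (e.symm (e p), 0)) = _
        rw [hpe, hσ]
      have h2 : (LE N).symm (χ.σ q₀) ≠ 0 := by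
        have h3 := (mem_coneE hP).1 (χ.σ_mem _ hq₀).1
        exact h3.choose
      refine ⟨Pool.Agent.TG.ms c ρ q₀, by rw [h1]; exact h2, ?_⟩
      simp only [h1]
      exact submersion_of_str hP hs hq₀ h2
    have h3 := hhol _ _ (e p) hφ' hsub hev
    have h4 : AnalyticAt ℂ (fun q : E => Ψ (jet m fun t => (LE N).symm (φ (e.symm (e q), t)))) p :=
      AnalyticAt.comp (g := fun q : Fin (Module.finrank ℂ E) → ℂ => Ψ (jet m fun t => (LE N).symm (φ (e.symm q, t)))) (f := e) h3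
        ((e : E →L[ℂ] (Fin (Module.finrank ℂ E) → ℂ)).analyticAt p)
    refine h4.congr ?_
    refine Eventually.of_forall fun q => ?_
    show Ψ (jet m fun t => (LE N).symm (φ (e.symm (e q), t))) = Ψ (fun i => (LE N).symm (jt m (fun t => φ (q, t)) i))
    rw [e.symm_apply_apply, jet_symm (fun t => φ (q, t))]

section out

variable {ν : Vd (k + 1)} {m : ℕ} {Ψ : (Fin (m + 1) → Cn (N + 1)) → ℂ}
    {hhom : ∀ φ : ℂ → Cn (N + 1), IsCurveOver (projVar P) Λ u ν φ → ∀ c : ℂ → ℂ, AnalyticAt ℂ c 0 → c 0 ≠ 0 → Ψ (jet m fun t => c t • φ t) = (c 0)⁻¹ * Ψ (jet m φ)}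
    {hhol : ∀ (r : ℕ) (φ : Cn r × ℂ → Cn (N + 1)) (p : Cn r), AnalyticAt ℂ φ (p, 0) →
      (∃ (y : Cn (k + 1)) (h : φ (p, 0) ≠ 0), Submersion (projVar P) Λ u y (Projectivization.mk ℂ (φ (p, 0)) h)) →
      (∀ᶠ q : Cn r × ℂ in 𝓝 (p, 0), ∃ y, Over (projVar P) Λ u y (φ (q.1, 0)) ∧ Over (projVar P) Λ u (y + q.2 • ν) (φ q)) → AnalyticAt ℂ (fun q => Ψ (jet m fun t => φ (q, t))) p}

/-- the jet form on the cone is algebraic -/
theorem algp_jf (hP : Homog P) {r e : ℕ} {R : Fin r → MvPolynomial (Fin (N + 1)) ℂ} {Q : Fin r → MvPolynomial (Fin (m + 1) × Fin (N + 1)) ℂ} (hR : ∀ i, (R i).IsHomogeneous e)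
    (hR0 : ∀ y ∉ D, ∀ x, Over (projVar P) Λ u y x → ∃ i, eval x (R i) ≠ 0)
    (halg : ∀ i, ∀ φ : ℂ → Cn (N + 1), IsCurveOver (projVar P) Λ u ν φ → (∀ y, Over (projVar P) Λ u y (φ 0) → y ∉ D) →
      eval (φ 0) (R i) * Ψ (jet m φ) = eval (fun p => jet m φ p.1 p.2) (Q i)) :
    AlgP D (jf hP hhom hhol) := by
  choose C M hC hCM using fun i => eval_growth (Q i)
  refine ⟨r, e, fun i x => eval ((LE N).symm x) (R i), fun i v => eval (fun p => (LE N).symm (v p.1) p.2) (Q i), ∑ i, C i, ∑ i, M i, ?_, ?_, ?_, ?_, ?_⟩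
  · intro i x
    have h2 : AnalyticAt ℂ (fun y : EN N => eval ((LE N).symm y) (R i)) x :=
      Pool.Agent.H22.AlgD.analyticAt_eval (((LE N).symm : EN N →L[ℂ] (Fin (N + 1) → ℂ)).analyticAt x) (R i)
    exact h2.differentiableAt
  · intro i c x
    show eval ((LE N).symm (c • x)) (R i) = _
    rw [map_smul, Pool.Agent.H22.AlgD.eval_smul_form (hR i)]
  · intro y hy x hx hxy
    exact hR0 y hy _ ((Pool.Agent.TGF.over_iff hP).2 ⟨hx, hxy⟩)
  · intro i v
    have hs : (0 : ℝ) ≤ ∑ j, ‖v j‖ := Finset.sum_nonneg fun j _ => norm_nonneg _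
    have h1 : ‖fun p : Fin (m + 1) × Fin (N + 1) => (LE N).symm (v p.1) p.2‖ ≤ ∑ j, ‖v j‖ := by
      refine (pi_norm_le_iff_of_nonneg hs).2 fun p => ?_
      refine (norm_le_pi_norm ((LE N).symm (v p.1)) p.2).trans ?_
      exact (Pool.Agent.H22.WL.norm_ofLp_le (v p.1)).trans (Finset.single_le_sum (f := fun j => ‖v j‖) (fun j _ => norm_nonneg _) (Finset.mem_univ p.1))
    refine (hCM i _).trans ?_
    refine mul_le_mul (Finset.single_le_sum (f := C) (fun j _ => hC j) (Finset.mem_univ i)) ?_ (by positivity) (Finset.sum_nonneg fun j _ => hC j)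
    refine (pow_le_pow_left₀ (by positivity) (add_le_add le_rfl h1) _).trans ?_
    exact pow_le_pow_right₀ (by linarith) (Finset.single_le_sum (f := M) (fun j _ => Nat.zero_le _) (Finset.mem_univ i))
  · intro i φ hφ hφD
    have h1 := halg i _ (curve_symm hP hφ) (fun y hy hyD => hφD y hyD ((Pool.Agent.TGF.over_iff hP).1 hy).2)
    rw [jet_symm φ] at h1
    exact h1

/-- the jet form on the cone is not `0` on the open subsets of the fibres outside `Nν` -/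
theorem thp_jf (hP : Homog P) {Nν : Set (Cn (k + 1))} {a : Vd (k + 1)} (hN : IsClosed Nν) (hline : ∀ y : Vd (k + 1), ∃ z : ℂ, y + z • a ∉ Nν)
    (hthin : ∀ y ∉ Nν, ∀ x, Over (projVar P) Λ u y x → ∀ U ∈ 𝓝 x,
      ∃ φ : ℂ → Cn (N + 1), AnalyticAt ℂ φ 0 ∧ (∀ᶠ t in 𝓝 (0 : ℂ), Over (projVar P) Λ u (y + t • ν) (φ t)) ∧ φ 0 ∈ U ∧ Ψ (jet m φ) ≠ 0) :
    ThP (jf hP hhom hhol) a Nν where
  closed := hN
  line := hline
  thin := by
    intro y hy x hx hxy U hU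
    have hU' : (LE N) ⁻¹' U ∈ 𝓝 ((LE N).symm x) := by
      apply (LE N).continuous.continuousAt.preimage_mem_nhds
      rw [ContinuousLinearEquiv.apply_symm_apply]
      exact hU
    obtain ⟨φ, hφ, hy', hφU, hne⟩ := hthin y hy _ ((Pool.Agent.TGF.over_iff hP).2 ⟨hx, hxy⟩) _ hU'
    have hsy : ∀ t, (LE N).symm ((LE N) (φ t)) = φ t := fun t => ContinuousLinearEquiv.symm_apply_apply _ _
    have han : AnalyticAt ℂ (fun t => (LE N) (φ t)) 0 := (((LE N) : (Fin (N + 1) → ℂ) →L[ℂ] EN N).analyticAt _).comp hφ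
    have hy2 : ∀ᶠ t in 𝓝 (0 : ℂ), (LE N) (φ t) ∈ coneE P ∧ uV Λ u ((LE N) (φ t)) - (y + t • ν) ∈ Λ := by
      filter_upwards [hy'] with t ht
      rw [← hsy t] at ht
      exact (Pool.Agent.TGF.over_iff hP).1 ht
    have h0 := hy2.self_of_nhds.2
    refine ⟨fun t => (LE N) (φ t), ⟨han, ?_⟩, hφU, ?_, ?_⟩
    · filter_upwards [hy2] with t ht
      refine ⟨ht.1, ?_⟩
      have h1 := Λ.sub_mem ht.2 h0
      have h2 : uV Λ u ((LE N) (φ t)) - (y + t • ν) - (uV Λ u ((LE N) (φ 0)) - (y + (0 : ℂ) • ν)) =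
          uV Λ u ((LE N) (φ t)) - (uV Λ u ((LE N) (φ 0)) + t • ν) := by
        rw [zero_smul]; abel
      rwa [h2] at h1
    · rw [zero_smul, add_zero] at h0
      exact h0
    · show Ψ (fun i => (LE N).symm (jt m (fun t => (LE N) (φ t)) i)) ≠ 0
      rw [← jet_symm (fun t => (LE N) (φ t))]
      simpa only [hsy] using hne

end out

/-- the jet forms on the cone -/
theorem jform_of (hP : Homog P) (hΛ : Lat Λ) (hs : Simp Λ) (hD : IsAnalyticSubset D) (hDu : D ≠ Set.univ) (hDi : ∀ y ∈ D, ∀ l ∈ Λ, y + l ∈ D)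
    (h : Pool.Agent.G4F.HasJetForms (projVar P) Λ u D) (ν : Vd (k + 1)) (hν : ν ≠ 0) :
    ∃ (m : ℕ) (Ψ : JForm (coneE P) Λ (uV Λ u) ν m) (Nν : Set (Vd (k + 1))), AlgP D Ψ ∧ ∀ a : Vd (k + 1), a ≠ 0 → ThP Ψ a Nν := by
  obtain ⟨m, Ψ, hΨ⟩ := h ν hν
  obtain ⟨Z, hZ, hZu, hZi, hthin⟩ := hΨ.nonzero
  refine ⟨m, jf hP hΨ.homogeneous hΨ.holomorphic, D ∪ Z, ?_, fun a ha => ?_⟩
  · obtain ⟨r, R, Q, hRh, hR0, halg⟩ := hΨ.algebraic
    choose e he using hRh
    obtain ⟨E, hE⟩ : ∃ E : ℕ, ∀ i, e i ≤ E := ⟨∑ i, e i, fun i => Finset.single_le_sum (f := e) (fun j _ => Nat.zero_le _) (Finset.mem_univ i)⟩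
    obtain ⟨σ, hσ⟩ : ∃ σ : Fin (r * (N + 1)) ≃ Fin r × Fin (N + 1), σ = finProdFinEquiv.symm := ⟨_, rfl⟩
    refine algp_jf hP (e := E) (R := fun j => X (σ j).2 ^ (E - e (σ j).1) * R (σ j).1) (Q := fun j => X ((0 : Fin (m + 1)), (σ j).2) ^ (E - e (σ j).1) * Q (σ j).1) ?_ ?_ ?_
    · intro j
      have h1 := ((isHomogeneous_X ℂ (σ j).2).pow (E - e (σ j).1)).mul (he (σ j).1)
      rw [one_mul, Nat.sub_add_cancel (hE _)] at h1
      exact h1
    · intro y hy x hx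
      obtain ⟨i, hi⟩ := hR0 y hy x hx
      obtain ⟨l, hl⟩ := Function.ne_iff.1 hx.choose
      refine ⟨σ.symm (i, l), ?_⟩
      rw [Equiv.apply_symm_apply, map_mul, map_pow, eval_X]
      exact mul_ne_zero (pow_ne_zero _ hl) hi
    · intro j φ hφ hφD
      have hφ0 : Over (projVar P) Λ u (uV Λ u (LE N (φ 0))) (φ 0) := by
        obtain ⟨y, hy⟩ := hφ.2
        have h1 := hy.self_of_nhds
        have h2 : (LE N).symm (LE N (φ 0)) = φ 0 := (LE N).symm_apply_apply _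
        rw [← h2] at h1
        have h3 := (Pool.Agent.TGF.over_iff hP).1 h1
        have h4 : Over (projVar P) Λ u (uV Λ u (LE N (φ 0))) ((LE N).symm (LE N (φ 0))) :=
          (Pool.Agent.TGF.over_iff hP).2 ⟨h3.1, by rw [sub_self]; exact Λ.zero_mem⟩
        rwa [h2] at h4
      have h1 := halg _ (hφD _ hφ0) φ hφ hφ0 (σ j).1
      rw [map_mul, map_pow, eval_X, map_mul, map_pow, eval_X, mul_assoc, h1]
      congr 2
  · refine thp_jf hP (hD.isClosed.union hZ.isClosed) (fun y => ?_) fun y hy => hthin y (fun h => hy (Or.inl h)) fun h => hy (Or.inr h)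
    obtain ⟨y₀, hy₀⟩ := (Set.ne_univ_iff_exists_notMem _).1 hDu
    obtain ⟨y₁, hy₁⟩ := (Set.ne_univ_iff_exists_notMem _).1 hZu
    have h1 := ldi_of hΛ hs (fun y _ => hD y : AnOff ∅ D) hDi hy₀ a ha y 0
    have h2 := ldi_of hΛ hs (fun y _ => hZ y : AnOff ∅ Z) hZi hy₁ a ha y 0
    obtain ⟨w, hw1, hw2⟩ := (h1.and h2).exists
    rw [add_comm (w • a) y] at hw1 hw2
    exact ⟨w, fun h => h.elim hw1 hw2⟩

end Pool.Agent.G4
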