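import Pool.Agent.H94.G5T.M134

/-!
# G4 FDefs: projective manifolds of dimension `n + 1` over simple complex tori of dimension `n`, with arbitrary singular fibres: the definitions of the final theorem

`X` is a smooth projective variety of dimension `n + 1`, `n = k + 1`, `u` a holomorphic map from `X` to a complex torus `ℂ^n / Λ`.  The definitions of `HasTopForms`, `HasSymmetricForms`,
`TorusHyperbolic` are those of `G3/F/FDefs`.

* `IsSimple Λ`: the torus contains no proper nonzero complex subtorus.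
* `HasEquations D B`: near the points of `D`, `D = {s = 0}` and `B = {s = t = 0}`, `s`, `t` holomorphic; `D \ B` is dense in `D`.
* `IsSmall Λ D B`: `n = 2` and `B` is finite modulo `Λ`, or `B` is invariant and `HasEquations D B`.
* `IsSingularLocus`: as in `G3/F/FDefs`, with `IsSmall`.
* `IsJetForm`, `HasJetForms`: algebraic jet differentials, not `0` on the open sets of the fibres outside an analytic subset.
-/

set_option autoImplicit false

open Topology Filter MvPolynomial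
open Pool.Agent.H17 (PN)
open Pool.Agent.TGF (Cn Over Submersion NormalCrossing IsCoord IsAnalyticSubset)
open Pool.Agent.G3F (IsCurveOver jet)

noncomputable section

namespace Pool.Agent.G4F

variable {N k : ℕ}

/-- The torus is simple: a complex subspace `W ≠ 0` which is the real span of its lattice points is the whole space. -/
def IsSimple {n : ℕ} (Λ : AddSubgroup (Cn n)) : Prop :=
  ∀ W : Submodule ℂ (Cn n), W ≠ ⊥ → (∀ v ∈ W, v ∈ Submodule.span ℝ {l : Cn n | l ∈ Λ ∧ l ∈ W}) → W = ⊤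

/-- Local equations: near the points of `D`, `D = {s = 0}` and `B = {s = t = 0}` with holomorphic functions `s`, `t`; and `D \ B` is dense in `D`. -/
def HasEquations (D B : Set (Cn (k + 1))) : Prop :=
  D ⊆ closure (D \ B) ∧ ∀ y ∈ D, ∃ s t : Cn (k + 1) → ℂ, AnalyticAt ℂ s y ∧ AnalyticAt ℂ t y ∧
    ∀ᶠ z in 𝓝 y, (z ∈ D ↔ s z = 0) ∧ (z ∈ B ↔ s z = 0 ∧ t z = 0)

/-- The set `B` is small: `k + 1 = 2` and `B` is finite modulo `Λ`, or `B` is invariant and `D`, `B` have local equations as above. -/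
def IsSmall (Λ : AddSubgroup (Cn (k + 1))) (D B : Set (Cn (k + 1))) : Prop :=
  (k = 1 ∧ ∃ S : Set (Cn (k + 1)), S.Finite ∧ ∀ b ∈ B, ∃ s ∈ S, b - s ∈ Λ) ∨ ((∀ b ∈ B, ∀ l ∈ Λ, b + l ∈ B) ∧ HasEquations D B)

/-- `D` contains the critical values of `u`, the map is of normal crossing type over `D \ B`, and `B` is small. -/
structure IsSingularLocus (X : Set (PN N)) (Λ : AddSubgroup (Cn (k + 1))) (u : PN N → Cn (k + 1) ⧸ Λ) (D B : Set (Cn (k + 1))) : Prop where
  analytic : IsAnalyticSubset D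
  proper : D ≠ Set.univ
  invariant : ∀ y ∈ D, ∀ l ∈ Λ, y + l ∈ D
  small : IsSmall Λ D B
  submersion : ∀ y ∉ D, ∀ x ∈ X, u x = (y : Cn (k + 1) ⧸ Λ) → Submersion X Λ u y x
  crossing : ∀ y ∈ D, y ∉ B → ∃ κ : Cn (k + 1) → Cn (k + 1), IsCoord D κ y ∧ ∀ x ∈ X, u x = (y : Cn (k + 1) ⧸ Λ) → NormalCrossing X Λ u κ x

/-- `Ψ` is an algebraic jet differential of order `m`, with values in `O(-1)`, on the holomorphic curves over lines in the direction `ν`, in the open set of `X` on which `u` is a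
submersion; outside an analytic subset of the torus it is `0` on no nonempty open subset of a fibre. -/
structure IsJetForm (X : Set (PN N)) (Λ : AddSubgroup (Cn (k + 1))) (u : PN N → Cn (k + 1) ⧸ Λ) (D : Set (Cn (k + 1))) (ν : Cn (k + 1)) (m : ℕ)
    (Ψ : (Fin (m + 1) → Cn (N + 1)) → ℂ) : Prop where
  /-- the values are in `O(-1)` -/
  homogeneous : ∀ φ : ℂ → Cn (N + 1), IsCurveOver X Λ u ν φ → ∀ c : ℂ → ℂ, AnalyticAt ℂ c 0 → c 0 ≠ 0 →
    Ψ (jet m fun t => c t • φ t) = (c 0)⁻¹ * Ψ (jet m φ)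
  /-- the form is holomorphic at the points at which `u` is a submersion -/
  holomorphic : ∀ (r : ℕ) (φ : Cn r × ℂ → Cn (N + 1)) (p : Cn r), AnalyticAt ℂ φ (p, 0) →
    (∃ (y : Cn (k + 1)) (h : φ (p, 0) ≠ 0), Submersion X Λ u y (Projectivization.mk ℂ (φ (p, 0)) h)) →
    (∀ᶠ q : Cn r × ℂ in 𝓝 (p, 0), ∃ y, Over X Λ u y (φ (q.1, 0)) ∧ Over X Λ u (y + q.2 • ν) (φ q)) → AnalyticAt ℂ (fun q => Ψ (jet m fun t => φ (q, t))) p
  /-- outside `D` the form is, locally in the Zariski topology, a quotient of a polynomial in the coordinates of the jet by a form on `X` -/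
  algebraic : ∃ (r : ℕ) (R : Fin r → MvPolynomial (Fin (N + 1)) ℂ) (Q : Fin r → MvPolynomial (Fin (m + 1) × Fin (N + 1)) ℂ), (∀ i, ∃ e, (R i).IsHomogeneous e) ∧
    (∀ y ∉ D, ∀ x, Over X Λ u y x → ∃ i, eval x (R i) ≠ 0) ∧
    ∀ y ∉ D, ∀ φ : ℂ → Cn (N + 1), IsCurveOver X Λ u ν φ → Over X Λ u y (φ 0) →
      ∀ i, eval (φ 0) (R i) * Ψ (jet m φ) = eval (fun j => jet m φ j.1 j.2) (Q i)
  nonzero : ∃ Z : Set (Cn (k + 1)), IsAnalyticSubset Z ∧ Z ≠ Set.univ ∧ (∀ y ∈ Z, ∀ l ∈ Λ, y + l ∈ Z) ∧ ∀ y ∉ D, y ∉ Z → ∀ x, Over X Λ u y x → ∀ U ∈ 𝓝 x,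
    ∃ φ : ℂ → Cn (N + 1), AnalyticAt ℂ φ 0 ∧ (∀ᶠ t in 𝓝 (0 : ℂ), Over X Λ u (y + t • ν) (φ t)) ∧ φ 0 ∈ U ∧ Ψ (jet m φ) ≠ 0

/-- For every direction `ν` there is an algebraic jet differential with values in `O(-1)`, not `0` on the general fibres, on the curves in `X` over lines in the direction `ν`. -/
def HasJetForms (X : Set (PN N)) (Λ : AddSubgroup (Cn (k + 1))) (u : PN N → Cn (k + 1) ⧸ Λ) (D : Set (Cn (k + 1))) : Prop :=
  ∀ ν : Cn (k + 1), ν ≠ 0 → ∃ (m : ℕ) (Ψ : (Fin (m + 1) → Cn (N + 1)) → ℂ), IsJetForm X Λ u D ν m Ψ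

end Pool.Agent.G4F
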